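import Pool.Agent.P.MP_709c52_lc.RO.Perm

/-! The average cost of the work function algorithm over all arrival orders. -/

set_option autoImplicit false

namespace Pool.Agent.P.MP_709c52_lc.RO

open Finset H99 Equiv Classical

variable {n : ℕ} {V : Type} [DecidableEq V] [Fintype V] {N : Type*} [PseudoMetricSpace N]
  {pick : (V → ℝ) → (V → ℕ) → V} {k : ℕ}
  (hp : ∀ (f : V → ℝ) (x : V → ℕ) (a : V), x a < k → x (pick f x) < k ∧ f (pick f x) ≤ f a)
  (s : V → N) (r : Fin n → N) (z : N) (o : Fin n → V) (v0 : V)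
include hp

lemma one_order {q : ℕ} (hn : n ≤ k * Fintype.card V) (hq : n ≤ k * q)
    (ho : ∀ v, (univ.filter fun a => o a = v).card ≤ k) (ρ : Perm (Fin n)) (dd : ℕ → ℝ)
    (h0 : ∀ i, 0 ≤ dd i) (hd : Antitone dd) (hρ : ∀ e, dd (ρ e) = dist (s (o e)) (r e))
    (t : Fin n) (σ : Perm (Fin n)) :
    ∑ u ∈ Ico (t : ℕ) n, (ext pick (fun i a => dist (s a) (ex (r ∘ (σ * swap t (ex id t u))) z i)) t -
      2 * dd (ρ ((σ * swap t (ex id t u)) t))) ≤
      4 * ∑ e, (if (ρ e : ℕ) < q * (n - t) ∧ Bad k (ex (o ∘ σ) v0) t (2 * ρ e + 1) then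
        dd (ρ e) else 0) + 2 * ((n - t : ℕ) * (dd (q * (n - t)) * q)) := by
  set O := ex (o ∘ σ) v0 with hO
  have hO1 : ∀ v, ld (range n) O v ≤ k := fun v => by
    rw [hO, ld_ex _ _ _ le_rfl]
    exact (card_filter_le _ _).trans (ho v)
  set P : ℕ → ℕ := ex (fun i => (ρ (σ i) : ℕ)) 0 with hP
  have hdP : ∀ i < n, dist (s (O i)) (ex (r ∘ σ) z i) = dd (P i) := fun i hi => by
    simp [hO, hP, ex, hi, hρ]
  set T := (range t).filter fun i => ¬ Bad k O t (2 * P i + 1) with hT
  have key := stepsum hp s (ex (r ∘ σ) z) O t.isLt hn hq hO1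
    (fun i => if P i < q * (n - t) then dd (P i) else 0) (h0 (q * (n - t)))
    (fun i hi => by
      rw [hdP i (hi.trans t.isLt)]
      have := h0 (q * (n - t))
      split_ifs with c
      · exact ⟨h0 _, by linarith⟩
      · exact ⟨le_rfl, by simpa using hd (not_lt.1 c)⟩)
    T (filter_subset _ _)
    (fun v => by
      have c1 : T.card ≤ (k - ld (range t) O v) / 2 := by
        refine (card_le_card_of_injOn (t := range ((k - ld (range t) O v) / 2)) P
          (fun i hi => ?_) fun i hi j hj e => ?_).trans_eq (card_range _)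
        · have := not_exists.1 (mem_filter.1 (mem_coe.1 hi)).2 v
          exact mem_coe.2 (mem_range.2 (by omega))
        · have c2 := (mem_range.1 (mem_filter.1 (mem_coe.1 hi)).1).trans t.isLt
          have c3 := (mem_range.1 (mem_filter.1 (mem_coe.1 hj)).1).trans t.isLt
          simp only [hP, ex, c2, c3, dif_pos] at e
          exact congrArg Fin.val (σ.injective (ρ.injective (Fin.ext e)))
      have c2 := (ld_mono (range_subset_range.2 t.isLt.le) O v).trans (hO1 v)
      omega)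
    (fun u => ex (r ∘ (σ * swap t (ex id t u))) z)
    (fun u hu => by
      obtain ⟨u1, u2⟩ := mem_Ico.1 hu
      refine ⟨fun i hi => ?_, by simp [ex, u2]⟩
      have c : i < n := hi.trans t.isLt
      simp only [ex, c, u2, dif_pos, Function.comp, Perm.coe_mul, id]
      rw [swap_apply_of_ne_of_ne (fun x => by simp [← x] at hi) fun x => by
        have := congrArg Fin.val x
        simp only at this
        omega])
  refine le_trans (le_of_eq (sum_congr rfl fun u hu => ?_)) (key.trans ?_)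
  · have u2 := (mem_Ico.1 hu).2
    rw [hdP u u2]
    simp [hP, ex, u2]
  · refine add_le_add (mul_le_mul_of_nonneg_left ?_ (by norm_num)) le_rfl
    rw [← Equiv.sum_comp σ]
    have e : ∀ i : Fin n, ((ρ (σ i) : Fin n) : ℕ) = P i := fun i => by rw [hP, ex_fin]
    simp only [e]
    rw [← Finset.sum_range fun i => if P i < q * (n - t) ∧ Bad k O t (2 * P i + 1) then
      dd (P i) else 0]
    refine le_trans (le_of_eq (sum_congr rfl fun i hi => ?_))
      (sum_le_sum_of_subset_of_nonneg (s := range t \ T)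
        (sdiff_subset.trans (range_subset_range.2 t.isLt.le))
        fun i _ _ => by split_ifs; exacts [h0 _, le_rfl])
    obtain ⟨c1, c2⟩ := mem_sdiff.1 hi
    have c3 : Bad k O t (2 * P i + 1) := not_not.1 fun x => c2 (mem_filter.2 ⟨c1, x⟩)
    simp only [c3, and_true]

lemma one_time {q : ℕ} (hn : n ≤ k * Fintype.card V) (hq : n ≤ k * q) (q0 : 1 ≤ q)
    (ho : ∀ v, (univ.filter fun a => o a = v).card ≤ k) (ρ : Perm (Fin n)) (dd : ℕ → ℝ)
    (h0 : ∀ i, 0 ≤ dd i) (hd : Antitone dd) (hρ : ∀ e, dd (ρ e) = dist (s (o e)) (r e))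
    (t : Fin n) :
    ∑ σ : Perm (Fin n), (ext pick (fun i a => dist (s a) (ex (r ∘ σ) z i)) t - 2 * dd (ρ (σ t))) ≤
      4 * ∑ σ : Perm (Fin n), ∑ e, dd (ρ e) *
        (if ρ e / q + 1 ≤ n - t ∧ Bad k (ex (o ∘ σ) v0) t (2 * ρ e + 1) then
          (1 : ℝ) / (n - t : ℕ) else 0) + 2 * (n.factorial * (dd (q * (n - t)) * q)) := by
  have L0 : (0 : ℝ) < (n - t : ℕ) := by exact_mod_cast (by have := t.isLt; omega : 0 < n - t)
  refine le_of_mul_le_mul_left ?_ L0
  have h1 := sum_le_sum fun σ (_ : σ ∈ (univ : Finset (Perm (Fin n)))) =>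
    one_order hp s r z o v0 hn hq ho ρ dd h0 hd hρ t σ
  have h2 := fun u : ℕ => Equiv.sum_comp (Equiv.mulRight (swap t (ex id t u)))
    fun σ : Perm (Fin n) => ext pick (fun i a => dist (s a) (ex (r ∘ σ) z i)) t -
      2 * dd (ρ (σ t))
  simp only [Equiv.coe_mulRight] at h2
  rw [sum_comm, sum_congr rfl fun u _ => h2 u, sum_const, Nat.card_Ico, nsmul_eq_mul, sum_add_distrib, sum_const,
    card_univ, Fintype.card_perm, Fintype.card_fin, nsmul_eq_mul, ← mul_sum] at h1
  refine h1.trans (le_of_eq ?_)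
  rw [mul_add, mul_left_comm _ 4]
  refine congrArg₂ (· + ·) (congrArg (4 * ·) ?_) (by ring)
  · rw [mul_sum]
    refine sum_congr rfl fun σ _ => ?_
    rw [mul_sum]
    refine sum_congr rfl fun e _ => ?_
    have : (ρ e : ℕ) / q + 1 ≤ n - t ↔ (ρ e : ℕ) < q * (n - t) := by
      rw [Nat.succ_le_iff, Nat.div_lt_iff_lt_mul q0, mul_comm]
    simp only [this]
    split_ifs
    · field_simp
    · simp

include v0 in
theorem avg {q : ℕ} (hn : n ≤ k * Fintype.card V) (hq : n ≤ k * q) (q0 : 1 ≤ q) (hk : 1 ≤ k)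
    (ho : ∀ v, (univ.filter fun a => o a = v).card ≤ k) :
    ∑ σ : Perm (Fin n), ∑ t ∈ range n, ext pick (fun i a => dist (s a) (ex (r ∘ σ) z i)) t ≤
      n.factorial * ((18 + 12 * Real.log q) * ∑ e, dist (s (o e)) (r e)) := by
  let τ := Tuple.sort fun e => -dist (s (o e)) (r e)
  let dd := ex (fun i => dist (s (o (τ i))) (r (τ i))) 0
  have h0 : ∀ i, 0 ≤ dd i := fun i => by
    simp only [dd, ex]; split_ifs; exacts [dist_nonneg, le_rfl]
  have hz : ∀ i, n ≤ i → dd i = 0 := fun i hi => dif_neg (not_lt.2 hi)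
  have hd : Antitone dd := fun i j hij => by
    by_cases c : j < n
    · have := Tuple.monotone_sort (fun e => -dist (s (o e)) (r e))
        (show (⟨i, hij.trans_lt c⟩ : Fin n) ≤ ⟨j, c⟩ from hij)
      simpa [dd, ex, c, hij.trans_lt c] using this
    · rw [hz j (not_lt.1 c)]; exact h0 i
  have hρ : ∀ e, dd (τ⁻¹ e : Fin n) = dist (s (o e)) (r e) := fun e => by simp [dd, ex_fin]
  set C := ∑ e, dist (s (o e)) (r e) with hC
  have hC1 : ∀ σ : Perm (Fin n), ∑ t, dd (τ⁻¹ (σ t) : Fin n) = C := fun σ => by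
    simp only [hρ]
    exact Equiv.sum_comp σ fun e => dist (s (o e)) (r e)
  have hC2 : ∑ i ∈ range n, dd i = C := by
    rw [Finset.sum_range]
    simpa using hC1 τ
  have h1 := sum_le_sum fun t (_ : t ∈ (univ : Finset (Fin n))) =>
    one_time hp s r z o v0 hn hq q0 ho τ⁻¹ dd h0 hd hρ t
  have h2 := thin dd hd hz q0
  have q1 : (1 : ℝ) ≤ q := by exact_mod_cast q0
  have h3 : ∀ e, ∑ σ : Perm (Fin n), ∑ t : Fin n,
      (if (τ⁻¹ e : Fin n) / q + 1 ≤ n - t ∧ Bad k (ex (o ∘ σ) v0) t (2 * (τ⁻¹ e : Fin n) + 1) then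
        (1 : ℝ) / (n - t : ℕ) else 0) ≤ n.factorial * (7 / 2 + 3 * Real.log q) := fun e => by
    generalize ((τ⁻¹ e : Fin n) : ℕ) = p
    have c1 := sum_le_sum fun σ (_ : σ ∈ (univ : Finset (Perm (Fin n)))) =>
      charge_time (a := p / q + 1) (c := 4 * q ^ 3) (Nat.le_add_left _ _)
        (Nat.mul_pos (by norm_num) (Nat.pow_pos q0)) fun t : Fin n =>
          Bad k (ex (o ∘ σ) v0) t (2 * p + 1)
    have c2 : ∑ σ : Perm (Fin n), (univ.filter fun t : Fin n =>
        Bad k (ex (o ∘ σ) v0) t (2 * p + 1)).card ≤ n.factorial * (4 * q ^ 3 * (p / q + 1)) := by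
      refine (bad_count o v0 hk hq ho _).trans ?_
      rw [mul_comm]
      refine Nat.mul_le_mul_left _ ?_
      have := Nat.mul_le_mul_left (4 * q ^ 2) (Nat.lt_mul_div_succ p q0)
      nlinarith
    have c3 : Real.log ((4 * q ^ 3 : ℕ) : ℝ) ≤ 3 / 2 + 3 * Real.log q := by
      push_cast
      rw [Real.log_mul (by norm_num) (by positivity), Real.log_pow,
        show (4 : ℝ) = 2 ^ 2 by norm_num, Real.log_pow]
      have := Real.log_two_lt_d9
      push_cast
      linarith
    rw [sum_add_distrib, sum_const, card_univ, Fintype.card_perm, Fintype.card_fin, nsmul_eq_mul,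
      ← sum_div, ← Nat.cast_sum] at c1
    have c4 : ((∑ σ : Perm (Fin n), (univ.filter fun t : Fin n =>
        Bad k (ex (o ∘ σ) v0) t (2 * p + 1)).card : ℕ) : ℝ) /
        (((4 * q ^ 3 : ℕ) : ℝ) * (p / q + 1 : ℕ)) ≤ n.factorial := by
      rw [div_le_iff₀ (by positivity)]
      exact_mod_cast c2
    have c5 := mul_le_mul_of_nonneg_left c3 (Nat.cast_nonneg (α := ℝ) n.factorial)
    linarith
  have h4 : ∑ t : Fin n, ∑ σ : Perm (Fin n), ∑ e, dd (τ⁻¹ e : Fin n) *
      (if (τ⁻¹ e : Fin n) / q + 1 ≤ n - t ∧ Bad k (ex (o ∘ σ) v0) t (2 * (τ⁻¹ e : Fin n) + 1) then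
        (1 : ℝ) / (n - t : ℕ) else 0) ≤ C * (n.factorial * (7 / 2 + 3 * Real.log q)) := by
    rw [sum_comm, sum_congr rfl fun σ _ => sum_comm, sum_comm, ← hC1 1, sum_mul]
    refine sum_le_sum fun e _ => ?_
    simp only [← mul_sum]
    exact mul_le_mul_of_nonneg_left (h3 e) (h0 _)
  rw [sum_add_distrib, ← mul_sum, ← mul_sum, ← mul_sum, sum_comm] at h1
  simp only [sum_sub_distrib, ← mul_sum, hC1, sum_const, card_univ, Fintype.card_perm,
    Fintype.card_fin, nsmul_eq_mul] at h1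
  have h5 := mul_le_mul_of_nonneg_left (h2.trans_eq hC2) (Nat.cast_nonneg (α := ℝ) n.factorial)
  simp only [Finset.sum_range]
  linarith

end Pool.Agent.P.MP_709c52_lc.RO
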