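import Pool.Agent.P.MP_709c52_lc.RO.Main

/-! The work function algorithm against an arbitrary finite family of points. -/

set_option autoImplicit false

namespace Pool.Agent.P.MP_709c52_lc.RO

open Finset H99

variable {V : Type} [DecidableEq V] [Fintype V] {N : Type*} [PseudoMetricSpace N]
  {pick : (V → ℝ) → (V → ℕ) → V} {k : ℕ}
  (hp : ∀ (f : V → ℝ) (x : V → ℕ) (a : V), x a < k → x (pick f x) < k ∧ f (pick f x) ≤ f a)
  (s : V → N) {ι : Type} [Fintype ι] (C : ι → N)
include hp

lemma gate_step (r : ℕ → N) (o : ℕ → V) {t : ℕ} (ho : ∀ w, ld (range (t + 1)) o w ≤ k) (v : ι) :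
    ext pick (fun i u => dist (s u) (r i)) t ≤ 2 * dist (C v) (r t) - ∑ c, dist (C c) (r t) +
      (∑ c, mn (t + 1) (fun i u => dist (s u) (r i) + dist (C c) (s u)) (fun y => ∀ w, y w ≤ k) -
        ∑ c, mn t (fun i u => dist (s u) (r i) + dist (C c) (s u)) (fun y => ∀ w, y w ≤ k)) := by
  classical
  set g : ℕ → V → ℝ := fun i u => dist (s u) (r i) with hg
  obtain ⟨a, ha, hA⟩ := step g (fun u => dist (C v) (s u)) (dec pick g) o ho
  rw [← X_eq] at ha hA
  have h1 : mn (t + 1) g (· = X pick g (t + 1)) + g t (dec pick g t) ≤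
      mn (t + 1) g (· = up (X pick g t) a) + g t a :=
    (hp (fun a => mn (t + 1) g (· = up (X pick g t) a) + g t a) _ a ha).2
  have h2 : g t a ≤ dist (C v) (r t) + dist (C v) (s a) :=
    (dist_triangle_left _ _ _).trans_eq (add_comm _ _)
  have h3 : ∀ c, mn t (fun i u => dist (s u) (r i) + dist (C c) (s u)) (fun y => ∀ w, y w ≤ k) +
      dist (C c) (r t) ≤
      mn (t + 1) (fun i u => dist (s u) (r i) + dist (C c) (s u)) (fun y => ∀ w, y w ≤ k) := by
    intro c
    obtain ⟨τ, hτ, e⟩ := mn_att (fun i u => dist (s u) (r i) + dist (C c) (s u))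
      (p := fun y => ∀ w, y w ≤ k) ho
    have := mn_le (t := t) (fun i u => dist (s u) (r i) + dist (C c) (s u))
      (p := fun y => ∀ w, y w ≤ k) (σ := τ) fun w =>
        (ld_mono (range_subset_range.2 (Nat.le_succ t)) τ w).trans (hτ w)
    rw [e, sum_range_succ]
    linarith [dist_triangle (C c) (s (τ t)) (r t)]
  have h4 := sum_le_sum fun c (_ : c ∈ univ.erase v) => h3 c
  rw [sum_add_distrib] at h4
  rw [ext, ← sum_erase_add univ _ (mem_univ v), ← sum_erase_add univ (fun c => mn (t + 1) _ _)
    (mem_univ v), ← sum_erase_add univ (fun c => mn t _ _) (mem_univ v)]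
  simp only [hg] at *
  linarith

/-- The master inequality. -/
theorem gate {n : ℕ} (r : Fin n → N) (hn : n ≤ k * Fintype.card V) (z : N) (v0 : V)
    (v : Fin n → ι) (o : Fin n → V) (ho : ∀ w, (univ.filter fun i => o i = w).card ≤ k) :
    ∃ o' : Fin n → V, (∀ w, (univ.filter fun i => o' i = w).card ≤ k) ∧
      ∑ i : Fin n, dist (s (alg pick s i (fun j => r (j.castLE i.isLt.le)) (r i))) (r i) +
        ∑ i, dist (s (o' i)) (r i) ≤ ∑ i, (2 * dist (C (v i)) (r i) +
          ∑ c, (dist (s (o i)) (r i) + dist (C c) (s (o i)) - dist (C c) (r i))) := by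
  set g : ℕ → V → ℝ := fun i a => dist (s a) (ex r z i) with hg
  obtain ⟨τ, hτ, eτ⟩ := mn_att g (t := n) (p := (· = X pick g n)) (σ := dec pick g)
    (X_eq pick g n).symm
  have hO : ∀ w, ld (range n) (ex o v0) w ≤ k := fun w => by
    rw [← card_ld]
    simpa only [ex_fin] using ho w
  refine ⟨fun i => τ i, fun w => by rw [card_ld, hτ, X_eq]; exact feas hp g n hn w, ?_⟩
  set S : ℕ → ℝ := fun t => ∑ c, mn t (fun i u => dist (s u) (ex r z i) + dist (C c) (s u))
    (fun y => ∀ w, y w ≤ k) with hS
  have c1 := mn_le g (t := 0) (p := (· = X pick g 0)) (σ := dec pick g) (X_eq pick g 0).symm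
  have c2 : ∑ t : Fin n, ext pick g t ≤ ∑ t : Fin n, (2 * dist (C (v t)) (r t) -
      ∑ c, dist (C c) (r t) + (S (t + 1) - S t)) := sum_le_sum fun t _ => by
    simpa only [ex_fin] using gate_step hp s C (ex r z) (ex o v0) (t := t)
      (fun w => (ld_mono (range_subset_range.2 t.isLt) _ w).trans (hO w)) (v t)
  have c3 : 0 ≤ S 0 := sum_nonneg fun c _ => by
    obtain ⟨τ, -, e⟩ := mn_att (t := 0) (fun i u => dist (s u) (ex r z i) + dist (C c) (s u))
      (p := fun y => ∀ w, y w ≤ k) (σ := ex o v0) (fun w => by simp [ld])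
    simp [e]
  have c4 : S n ≤ ∑ c, ∑ i : Fin n, (dist (s (o i)) (r i) + dist (C c) (s (o i))) :=
    sum_le_sum fun c _ => by
      have := mn_le (fun i u => dist (s u) (ex r z i) + dist (C c) (s u))
        (p := fun y => ∀ w, y w ≤ k) hO
      rw [Finset.sum_range] at this
      simpa only [ex_fin] using this
  rw [sum_add_distrib, ← Finset.sum_range fun t => S (t + 1) - S t, sum_range_sub,
    ← Finset.sum_range, sum_ext, eτ, Finset.sum_range, Finset.sum_range] at c2
  rw [sum_comm] at c4
  simp only [alg_eq pick s r z]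
  simp only [hg, ex_fin, range_zero, sum_empty, sum_add_distrib, sum_sub_distrib] at c1 c2 c4 ⊢
  linarith

omit hp [Fintype V]

/-- A sequence takes at most one more value than it has changes. -/
lemma card_values (a : ℕ → V) (n : ℕ) : ((range (n + 1)).image a).card ≤
    ((range n).filter fun i => a (i + 1) ≠ a i).card + 1 := by
  induction n with
  | zero => simp
  | succ n ih =>
    rw [range_add_one (n := n + 1), image_insert]
    by_cases h : a (n + 1) = a n
    · rw [insert_eq_of_mem (mem_image.2 ⟨n, by simp, h.symm⟩)]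
      exact ih.trans (Nat.succ_le_succ (card_le_card
        (filter_subset_filter _ (range_subset_range.2 n.le_succ))))
    · refine (card_insert_le _ _).trans (Nat.succ_le_succ (ih.trans_eq ?_))
      rw [range_add_one, filter_insert, if_pos h, card_insert_of_notMem (by simp)]

end Pool.Agent.P.MP_709c52_lc.RO
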