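import Pool.Agent.P.MP_709c52_lc.RO.Perm

/-! The lower bound in random order: a star, one request at the centre. -/

set_option autoImplicit false

namespace Pool.Agent.P.MP_709c52_lc.RO

open Finset Equiv Classical

variable {n : ℕ}

lemma sym (P : Finset (Fin n)) (t : Fin n) (Ψ : Perm (Fin n) → Prop) [DecidablePred Ψ] :
    P.card * (univ.filter Ψ).card = ∑ σ, (P.filter fun u => Ψ (σ * swap t u)).card := by
  simp only [card_filter]
  rw [sum_comm, ← smul_eq_mul, ← sum_const]
  exact sum_congr rfl fun u _ =>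
    (Equiv.sum_comp (Equiv.mulRight (swap t u)) fun σ => if Ψ σ then 1 else 0).symm

lemma card_perms : (univ : Finset (Perm (Fin n))).card = n.factorial := by
  rw [card_univ, Fintype.card_perm, Fintype.card_fin]

lemma card_comp (σ : Perm (Fin n)) (p : Fin n → Prop) [DecidablePred p] :
    (univ.filter fun i => p (σ i)).card = (univ.filter p).card := by
  simp only [card_filter]
  exact Equiv.sum_comp σ fun i => if p i then 1 else 0

variable {V : Type} [DecidableEq V] [Fintype V] (near : V → Prop) [DecidablePred near]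
  (c : Fin n → V) {k : ℕ}

/-- The tokens at the places `J` are near and have different colours. -/
def Ev (J : Finset (Fin n)) (σ : Perm (Fin n)) : Prop :=
  ∀ u ∈ J, ∀ u' ∈ J, if u' = u then near (c (σ u)) else c (σ u') ≠ c (σ u)

omit [Fintype V] in
lemma birthday (hc1 : ∀ v, (univ.filter fun i => c i = v).card ≤ k)
    (hc3 : (univ.filter fun i => ¬ near (c i)).card ≤ k) (J : Finset (Fin n)) :
    n * (univ.filter fun σ => ¬ Ev near c J σ).card ≤ J.card ^ 2 * (k * n.factorial) := by
  have h1 : ∀ u u' : Fin n, n * (univ.filter fun σ : Perm (Fin n) =>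
      ¬ if u' = u then near (c (σ u)) else c (σ u') ≠ c (σ u)).card ≤ k * n.factorial := by
    intro u u'
    by_cases e : u' = u
    · simp only [e, if_true]
      have := sym univ u fun σ => ¬ near (c (σ u))
      rw [card_univ, Fintype.card_fin] at this
      refine this.trans_le ((sum_le_card_nsmul _ _ k fun σ _ => ?_).trans_eq ?_)
      · simp only [Perm.coe_mul, Function.comp, swap_apply_left]
        exact (card_comp σ fun i => ¬ near (c i)).trans_le hc3
      · rw [card_perms, smul_eq_mul, mul_comm]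
    · simp only [e, if_false, ne_eq, not_not]
      set S := univ.filter fun σ : Perm (Fin n) => c (σ u') = c (σ u) with hS
      have h2 := sym (univ.erase u) u' fun σ => c (σ u') = c (σ u)
      have h3 : ∀ σ : Perm (Fin n), ((univ.erase u).filter fun x =>
          c ((σ * swap u' x) u') = c ((σ * swap u' x) u)).card + 1 ≤ k := fun σ => by
        refine le_trans (Nat.succ_le_of_lt (card_lt_card ⟨fun x hx => ?_, fun y => ?_⟩))
          ((card_comp σ fun i => c i = c (σ u)).trans_le (hc1 (c (σ u))))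
        · obtain ⟨x1, x2⟩ := mem_filter.1 hx
          rw [Perm.mul_apply, Perm.mul_apply, swap_apply_left,
            swap_apply_of_ne_of_ne (Ne.symm e) (ne_of_mem_erase x1).symm] at x2
          exact mem_filter.2 ⟨mem_univ _, x2⟩
        · simpa using y (mem_filter.2 ⟨mem_univ u, rfl⟩)
      have h4 := sum_le_card_nsmul univ _ k fun σ _ => h3 σ
      rw [sum_add_distrib, sum_const, card_perms, smul_eq_mul, smul_eq_mul, mul_one] at h4
      have h5 : S.card ≤ n.factorial := (card_le_univ S).trans_eq card_perms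
      rw [card_erase_of_mem (mem_univ _), card_univ, Fintype.card_fin] at h2
      have h6 : (n - 1) * S.card + n.factorial ≤ n.factorial * k := by
        rw [h2]
        exact h4
      have h7 : n * S.card = (n - 1) * S.card + S.card := by
        rw [← Nat.succ_mul, Nat.succ_eq_add_one, Nat.sub_add_cancel u.pos]
      rw [mul_comm k]
      omega
  have h2 : (univ.filter fun σ => ¬ Ev near c J σ).card ≤ ∑ u ∈ J, ∑ u' ∈ J,
      (univ.filter fun σ : Perm (Fin n) =>
        ¬ if u' = u then near (c (σ u)) else c (σ u') ≠ c (σ u)).card := by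
    refine le_trans (card_le_card fun σ hσ => ?_)
      (card_biUnion_le.trans (sum_le_sum fun u _ => card_biUnion_le))
    have := (mem_filter.1 hσ).2
    simp only [Ev, not_forall] at this
    obtain ⟨u, hu, u', hu', x⟩ := this
    exact mem_biUnion.2 ⟨u, hu, mem_biUnion.2 ⟨u', hu', mem_filter.2 ⟨mem_univ _, x⟩⟩⟩
  refine (Nat.mul_le_mul_left n h2).trans ?_
  simp only [mul_sum]
  refine (sum_le_card_nsmul _ _ _ fun u _ => sum_le_card_nsmul _ _ _ fun u' _ => h1 u u').trans_eq ?_
  simp only [smul_eq_mul]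
  ring

/-- Request `t` is moved, or a far site was used before. -/
def Zv (j : Fin n) (a : Fin n → V) (σ : Perm (Fin n)) (t : Fin n) : Prop :=
  a t ≠ c (σ t) ∨ ∃ i < t, ¬ near (a i) ∧ (i = j ∨ a i ≠ c (σ i))

lemma rot (hc2 : ∀ v, near v → k ≤ (univ.filter fun i => c i = v).card) {j t : Fin n} (hj : j < t)
    (a : Perm (Fin n) → Fin n → V)
    (pre : ∀ σ σ' i, (∀ l ≤ i, l ≠ j → c (σ l) = c (σ' l)) → a σ i = a σ' i)
    (feas : ∀ σ v, (univ.filter fun i => a σ i = v).card ≤ k) (σ : Perm (Fin n))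
    (h : Ev near c (univ.filter fun u => u = j ∨ t ≤ u) σ) :
    ∃ u, (u = j ∨ t ≤ u) ∧ near (c ((σ * swap t u) j)) ∧
      Zv near c j (a (σ * swap t u)) (σ * swap t u) t := by
  have hn : ∀ u, (u = j ∨ t ≤ u) → near (c (σ u)) := fun u hu => by
    simpa using h u (by simpa using hu) u (by simpa using hu)
  by_cases G : ∃ i < t, ¬ near (a σ i) ∧ (i = j ∨ a σ i ≠ c (σ i))
  · exact ⟨t, .inr le_rfl, by simpa using hn j (.inl rfl), .inr (by
      rw [swap_self, ← Perm.one_def, mul_one]; exact G)⟩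
  push Not at G
  obtain ⟨v, hv⟩ : ∃ v, ((Iio t).erase j |>.filter fun i => c (σ i) = v).card <
      ((Iio t).filter fun i => a σ i = v).card := by
    by_contra x
    push Not at x
    have h1 := sum_le_sum fun v (_ : v ∈ (univ : Finset V)) => x v
    rw [← card_eq_sum_card_fiberwise fun _ _ => mem_univ _,
      ← card_eq_sum_card_fiberwise fun _ _ => mem_univ _] at h1
    exact absurd (card_erase_lt_of_mem (mem_Iio.2 hj)) (not_lt.2 h1)
  have nv : near v := by
    by_contra x
    refine absurd (card_le_card fun i hi => ?_) (not_le.2 hv)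
    obtain ⟨i1, rfl⟩ := mem_filter.1 hi
    obtain ⟨g1, g2⟩ := G i (mem_Iio.1 i1) x
    exact mem_filter.2 ⟨mem_erase.2 ⟨g1, i1⟩, g2.symm⟩
  have h1 : k ≤ (univ.filter fun i => c (σ i) = v).card :=
    (hc2 v nv).trans_eq (card_comp σ fun i => c i = v).symm
  have h2 : ((Iio t).filter fun i => a σ i = v).card ≤ k :=
    (card_le_card (filter_subset_filter _ (subset_univ _))).trans (feas σ v)
  obtain ⟨u, u1, u2⟩ := exists_mem_notMem_of_card_lt_card (hv.trans_le (h2.trans h1))
  have u3 := (mem_filter.1 u1).2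
  have hu : u = j ∨ t ≤ u := by
    by_contra x
    push Not at x
    exact u2 (mem_filter.2 ⟨mem_erase.2 ⟨x.1, mem_Iio.2 x.2⟩, u3⟩)
  have h3 : (univ.filter fun i => c (σ i) = v) ⊆
      insert u ((Iio t).erase j |>.filter fun i => c (σ i) = v) := fun i hi => by
    have i1 := (mem_filter.1 hi).2
    by_cases x : i = j ∨ t ≤ i
    · have := h u (by simpa using hu) i (by simpa using x)
      split_ifs at this with e
      · exact e ▸ mem_insert_self _ _
      · exact absurd (i1.trans u3.symm) this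
    · push Not at x
      exact mem_insert_of_mem (mem_filter.2 ⟨mem_erase.2 ⟨x.1, mem_Iio.2 x.2⟩, i1⟩)
  have h4 := (card_le_card h3).trans (card_insert_le _ _)
  refine ⟨u, hu, ?_, .inl fun e => ?_⟩
  · rw [Perm.mul_apply, swap_apply_def]
    split_ifs
    exacts [hn u hu, hn t (.inr le_rfl), hn j (.inl rfl)]
  · rw [Perm.mul_apply, swap_apply_left, u3] at e
    have h5 : insert t ((Iio t).filter fun i => a σ i = v) ⊆
        univ.filter fun i => a (σ * swap t u) i = v := by
      refine insert_subset (mem_filter.2 ⟨mem_univ _, e⟩) fun i hi => ?_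
      obtain ⟨i1, i2⟩ := mem_filter.1 hi
      refine mem_filter.2 ⟨mem_univ _, (pre _ σ i fun l hl hl' => ?_).trans i2⟩
      have l1 := hl.trans_lt (mem_Iio.1 i1)
      rw [Perm.mul_apply, swap_apply_of_ne_of_ne l1.ne]
      rcases hu with rfl | hu
      exacts [hl', (l1.trans_le hu).ne]
    have h6 := (card_le_card h5).trans (feas _ v)
    rw [card_insert_of_notMem (by simp)] at h6
    omega

lemma one_pair (hc1 : ∀ v, (univ.filter fun i => c i = v).card ≤ k)
    (hc2 : ∀ v, near v → k ≤ (univ.filter fun i => c i = v).card)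
    (hc3 : (univ.filter fun i => ¬ near (c i)).card ≤ k) {j t : Fin n} (hj : j < t)
    (a : Perm (Fin n) → Fin n → V)
    (pre : ∀ σ σ' i, (∀ l ≤ i, l ≠ j → c (σ l) = c (σ' l)) → a σ i = a σ' i)
    (feas : ∀ σ v, (univ.filter fun i => a σ i = v).card ≤ k) :
    n * n.factorial ≤ (n - t + 1) ^ 2 * (k * n.factorial) + n * ((n - t + 1) *
      (univ.filter fun σ : Perm (Fin n) => near (c (σ j)) ∧ Zv near c j (a σ) σ t).card) := by
  set J := univ.filter fun u => u = j ∨ t ≤ u with hJ
  have h0 : J.card = n - t + 1 := by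
    rw [show J = insert j (Ici t) by ext; simp [hJ], card_insert_of_notMem (by simpa using hj),
      Fin.card_Ici]
  have h1 := birthday near c hc1 hc3 J
  have h2 := sym J t fun σ => near (c (σ j)) ∧ Zv near c j (a σ) σ t
  have h3 : (univ.filter (Ev near c J)).card ≤ ∑ σ : Perm (Fin n), (J.filter fun u =>
      near (c ((σ * swap t u) j)) ∧ Zv near c j (a (σ * swap t u)) (σ * swap t u) t).card := by
    rw [card_filter]
    refine sum_le_sum fun σ _ => ?_
    split_ifs with h
    · obtain ⟨u, u1, u2⟩ := rot near c hc2 hj a pre feas σ h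
      exact card_pos.2 ⟨u, mem_filter.2 ⟨mem_filter.2 ⟨mem_univ _, u1⟩, u2⟩⟩
    · exact Nat.zero_le _
  have h4 := card_filter_add_card_filter_not (s := univ) (Ev near c J)
  rw [card_perms] at h4
  rw [h0] at h1 h2
  have h5 : (univ.filter (Ev near c J)).card ≤ (n - t + 1) *
      (univ.filter fun σ : Perm (Fin n) => near (c (σ j)) ∧ Zv near c j (a σ) σ t).card :=
    h3.trans_eq h2.symm
  have h6 := Nat.mul_le_mul_left n h5
  rw [← h4, mul_add, h4]
  omega

lemma log_le (L : ℕ) : Real.log (L + 2) - 1 ≤ ∑ l ∈ range L, (1 : ℝ) / (l + 2) := by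
  induction L with
  | zero => have := Real.log_two_lt_d9; simp; linarith
  | succ L ih =>
    have h := Real.log_le_sub_one_of_pos (x := (L + 3 : ℝ) / (L + 2)) (by positivity)
    rw [Real.log_div (by positivity) (by positivity),
      show (L + 3 : ℝ) / (L + 2) - 1 = 1 / (L + 2) by field_simp; ring] at h
    rw [sum_range_succ]
    push_cast
    rw [show (L + 1 + 2 : ℝ) = L + 3 by ring]
    linarith

omit [Fintype V] in
lemma pay (j : Fin n) (a : Fin n → V) (σ : Perm (Fin n)) (g : Fin n → ℝ) (g0 : ∀ i, 0 ≤ g i)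
    (g2 : ∀ i, i ≠ j → a i ≠ c (σ i) → 2 ≤ g i)
    (gD : ∀ i, ¬ near (a i) → (i = j ∨ a i ≠ c (σ i)) → 2 * n ≤ g i) :
    ∑ t, (if j < t ∧ Zv near c j a σ t then (2 : ℝ) else 0) ≤ ∑ i, g i := by
  by_cases G : ∃ i, ¬ near (a i) ∧ (i = j ∨ a i ≠ c (σ i))
  · obtain ⟨i, i1, i2⟩ := G
    refine le_trans ?_ ((gD i i1 i2).trans (single_le_sum (fun i _ => g0 i) (mem_univ i)))
    refine (sum_le_card_nsmul _ _ 2 fun t _ => by split_ifs <;> norm_num).trans_eq ?_
    simp [mul_comm]
  · refine sum_le_sum fun t _ => ?_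
    split_ifs with h
    · exact g2 t h.1.ne' (h.2.resolve_right fun ⟨i, _, x⟩ => G ⟨i, x⟩)
    · exact g0 t

theorem lower (hk : 1 ≤ k) (hn : 1 ≤ n) (hc1 : ∀ v, (univ.filter fun i => c i = v).card ≤ k)
    (hc2 : ∀ v, near v → k ≤ (univ.filter fun i => c i = v).card)
    (hc3 : (univ.filter fun i => ¬ near (c i)).card ≤ k)
    (a : Fin n → Perm (Fin n) → Fin n → V)
    (pre : ∀ j σ σ' i, (∀ l ≤ i, l ≠ j → c (σ l) = c (σ' l)) → a j σ i = a j σ' i)
    (feas : ∀ j σ v, (univ.filter fun i => a j σ i = v).card ≤ k)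
    (g : Fin n → Perm (Fin n) → Fin n → ℝ) (g0 : ∀ j σ i, 0 ≤ g j σ i)
    (g2 : ∀ j σ i, i ≠ j → a j σ i ≠ c (σ i) → 2 ≤ g j σ i)
    (gD : ∀ j σ i, ¬ near (a j σ i) → (i = j ∨ a j σ i ≠ c (σ i)) → 2 * n ≤ g j σ i)
    {q : ℕ} (q0 : 1 ≤ q) (hq : ∀ l, n ≤ k * l → q ≤ l) :
    n * n.factorial * (Real.log q - 6) ≤
      ∑ j, ∑ σ : Perm (Fin n), if near (c (σ j)) then ∑ i, g j σ i else 0 := by
  set F : Fin n → Fin n → ℝ := fun j t => (univ.filter fun σ : Perm (Fin n) =>
    near (c (σ j)) ∧ Zv near c j (a j σ) σ t).card with hF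
  have h1 : ∑ t, ∑ j ∈ Iio t, 2 * F j t ≤
      ∑ j, ∑ σ : Perm (Fin n), if near (c (σ j)) then ∑ i, g j σ i else 0 := by
    have e : ∀ t : Fin n, Iio t = univ.filter (· < t) := fun t => by ext; simp
    simp only [e, sum_filter]
    rw [sum_comm]
    refine sum_le_sum fun j _ => le_trans (le_of_eq ?_) (sum_le_sum fun σ _ =>
      show (if near (c (σ j)) then ∑ t, if j < t ∧ Zv near c j (a j σ) σ t then (2 : ℝ) else 0
        else 0) ≤ _ from ?_)
    · simp only [hF, card_filter, Nat.cast_sum, mul_sum, ite_sum_zero]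
      rw [sum_comm]
      refine sum_congr rfl fun σ _ => sum_congr rfl fun t _ => ?_
      by_cases x : j < t <;> by_cases y : near (c (σ j)) <;>
        by_cases w : Zv near c j (a j σ) σ t <;> simp [x, y, w]
    · split_ifs
      exacts [pay near c j _ σ _ (g0 j σ) (g2 j σ) (gD j σ), le_rfl]
  refine le_trans ?_ h1
  have n0 : (1 : ℝ) ≤ n := by exact_mod_cast hn
  have k0 : (1 : ℝ) ≤ k := by exact_mod_cast hk
  have f0 : (0 : ℝ) < n.factorial := by exact_mod_cast n.factorial_pos
  set Λ := Nat.sqrt (n / k) with hΛ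
  have l1 : Λ * Λ * k ≤ n := (Nat.mul_le_mul_right k (Nat.sqrt_le _)).trans (Nat.div_mul_le_self _ _)
  have l2 : q ≤ (Λ + 1) ^ 2 := hq _ ((Nat.lt_mul_div_succ n hk).le.trans
    (Nat.mul_le_mul_left k (Nat.lt_succ_sqrt' _)))
  have l3 : Real.log q ≤ 2 * Real.log (Λ + 1) := by
    rw [← Nat.cast_ofNat, ← Real.log_pow]
    exact Real.log_le_log (by exact_mod_cast q0) (by exact_mod_cast l2)
  have h2 : ∀ L : Fin n, 2 * n.factorial * (n / (L + 2) - k * (L + 3) : ℝ) ≤
      ∑ j ∈ Iio L.rev, 2 * F j L.rev := fun L => by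
    have e1 : n - L.rev + 1 = L + 2 := by have := L.isLt; rw [Fin.val_rev]; omega
    have e2 : ((L.rev : ℕ) : ℝ) = n - (L + 1) := by
      rw [Fin.val_rev, Nat.cast_sub L.isLt]; push_cast; rfl
    have L0 : (0 : ℝ) ≤ (L : ℕ) := Nat.cast_nonneg _
    refine le_trans ?_ (card_nsmul_le_sum _ _
      (2 * (n.factorial * (1 / (L + 2) - (L + 2) * k / n)) : ℝ) fun j hj => ?_)
    · rw [Fin.card_Iio, nsmul_eq_mul, e2]
      have e3 : 2 * n.factorial * (n / (L + 2) - k * (L + 3) : ℝ) =
          (n - (L + 1)) * (2 * (n.factorial * (1 / (L + 2) - (L + 2) * k / n))) -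
            2 * n.factorial * ((k - (L + 1) / (L + 2)) + (L + 1) * (L + 2) * k / n) := by
        field_simp
        ring
      have e4 : ((L : ℕ) + 1 : ℝ) / (L + 2) ≤ 1 := (div_le_one (by positivity)).2 (by linarith)
      rw [e3]
      exact sub_le_self _ (mul_nonneg (by positivity) (add_nonneg (by linarith) (by positivity)))
    · have := one_pair near c hc1 hc2 hc3 (mem_Iio.1 hj) (a j) (pre j) (feas j)
      rw [e1] at this
      have e5 : (n : ℝ) * n.factorial ≤ (L + 2) ^ 2 * (k * n.factorial) + n * ((L + 2) * F j L.rev) := by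
        simp only [hF]
        exact_mod_cast this
      refine mul_le_mul_of_nonneg_left (le_of_mul_le_mul_left (a := (n * (L + 2) : ℝ)) ?_
        (by positivity)) (by norm_num)
      refine le_of_eq_of_le (b := (n * n.factorial - (L + 2) ^ 2 * (k * n.factorial) : ℝ)) ?_
        (by linarith)
      field_simp
  have h3 : ∑ L ∈ range (Λ - 1), 2 * n.factorial * (n / (L + 2) - k * (L + 3) : ℝ) ≤
      ∑ t, ∑ j ∈ Iio t, 2 * F j t := by
    have l4 : range (Λ - 1) = (range n).filter (· < Λ - 1) := by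
      have : Λ ≤ n := by nlinarith [Nat.le_mul_self Λ]
      ext; simp; omega
    rw [← Equiv.sum_comp Fin.revPerm, l4, sum_filter, Finset.sum_range]
    refine sum_le_sum fun L _ => ?_
    split_ifs
    · exact h2 L
    · exact sum_nonneg fun _ _ => by positivity
  refine le_trans ?_ h3
  rw [← mul_sum, sum_sub_distrib, ← mul_sum]
  have h4 : Real.log (Λ + 1) - 1 ≤ ∑ L ∈ range (Λ - 1), (1 : ℝ) / (L + 2) := by
    rcases Nat.eq_zero_or_pos Λ with e | e
    · simp [e]
    · have := log_le (Λ - 1)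
      rwa [Nat.cast_sub e, Nat.cast_one, show (Λ - 1 + 2 : ℝ) = Λ + 1 by ring] at this
  have h5 : ∑ L ∈ range (Λ - 1), ((L : ℝ) + 3) ≤ 2 * (Λ * Λ) := by
    refine (sum_le_card_nsmul _ _ (2 * Λ : ℝ) fun L hL => ?_).trans ?_
    · have := mem_range.1 hL
      exact_mod_cast (by omega : L + 3 ≤ 2 * Λ)
    · have : ((Λ - 1 : ℕ) : ℝ) ≤ Λ := by exact_mod_cast Nat.sub_le _ _
      rw [card_range, nsmul_eq_mul]
      nlinarith [Nat.cast_nonneg (α := ℝ) Λ]
  have h6 : (Λ * Λ * k : ℝ) ≤ n := by exact_mod_cast l1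
  have h7 : ∑ L ∈ range (Λ - 1), (n : ℝ) / (L + 2) = n * ∑ L ∈ range (Λ - 1), (1 : ℝ) / (L + 2) := by
    rw [mul_sum]
    exact sum_congr rfl fun L _ => by ring
  have h8 := mul_le_mul_of_nonneg_left h5 (by linarith : (0 : ℝ) ≤ k)
  have h9 := mul_le_mul_of_nonneg_left h4 (by linarith : (0 : ℝ) ≤ n)
  have h10 := mul_le_mul_of_nonneg_left l3 (by linarith : (0 : ℝ) ≤ n)
  rw [h7, mul_comm (n : ℝ), mul_comm 2, mul_assoc, mul_assoc]
  exact mul_le_mul_of_nonneg_left (by linarith) f0.le

end Pool.Agent.P.MP_709c52_lc.RO
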