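import Pool.Agent.P.MP_709c52_lc.RO.Avg
import Pool.Agent.P.MP_709c52_lc.RO.Low

/-! The work function algorithm as an online rule, in the worst order and in random order. -/

set_option autoImplicit false

namespace Pool.Agent.P.MP_709c52_lc.RO

open Finset H99 Equiv

variable {V : Type} [DecidableEq V] [Fintype V] {N : Type*} [PseudoMetricSpace N]

/-- The online form of the work function algorithm. -/
noncomputable def alg (pick : (V → ℝ) → (V → ℕ) → V) (s : V → N) (i : ℕ) (h : Fin i → N) (q : N) :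
    V :=
  dec pick (fun j u => dist (s u) (if hj : j < i then h ⟨j, hj⟩ else q)) i

omit [Fintype V] in
lemma alg_eq (pick : (V → ℝ) → (V → ℕ) → V) (s : V → N) {n : ℕ} (r : Fin n → N) (z : N)
    (i : Fin n) : alg pick s i (fun j => r (j.castLE i.isLt.le)) (r i) =
      dec pick (fun j u => dist (s u) (ex r z j)) i := by
  refine dec_congr pick i fun j hj => ?_
  funext u
  have hjn : j < n := by omega
  by_cases h : j < i
  · simp [ex, h, hjn]
  · obtain rfl : j = i := by omega
    simp [ex]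

omit [Fintype V] in
lemma card_ld {n : ℕ} (σ : ℕ → V) (v : V) :
    (univ.filter fun i : Fin n => σ i = v).card = ld (range n) σ v := by
  rw [card_filter, ld, Finset.sum_range]

variable {pick : (V → ℝ) → (V → ℕ) → V} {k : ℕ}
  (hp : ∀ (f : V → ℝ) (x : V → ℕ) (a : V), x a < k → x (pick f x) < k ∧ f (pick f x) ≤ f a)
  (s : V → N) {n : ℕ} (r : Fin n → N) (hn : n ≤ k * Fintype.card V)
include hp hn

lemma alg_feas (z : N) (v : V) : (univ.filter fun i : Fin n =>
    alg pick s i (fun j => r (j.castLE i.isLt.le)) (r i) = v).card ≤ k := by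
  simp only [alg_eq pick s r z]
  rw [card_ld]
  exact feas hp _ n hn v

lemma alg_worst {j : ℕ} (h1 : 1 ≤ n) (hj : n ≤ k * j) (o : Fin n → V)
    (ho : ∀ v, (univ.filter fun i => o i = v).card ≤ k) :
    ∑ i : Fin n, dist (s (alg pick s i (fun j => r (j.castLE i.isLt.le)) (r i))) (r i) ≤
      (2 * j - 1) * ∑ i, dist (s (o i)) (r i) := by
  have := wfa' hp s (ex r (r ⟨0, h1⟩)) (ex o (o ⟨0, h1⟩)) (n := n) (fun v => by
    rw [← card_ld]
    simpa only [ex_fin] using ho v) hn h1 hj
  rw [Finset.sum_range, Finset.sum_range] at this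
  simpa only [ex_fin, alg_eq pick s r (r ⟨0, h1⟩)] using this

lemma alg_avg {q : ℕ} (h1 : 1 ≤ n) (hq : n ≤ k * q) (o : Fin n → V)
    (ho : ∀ v, (univ.filter fun i => o i = v).card ≤ k)
    (hopt : ∀ o' : Fin n → V, (∀ v, (univ.filter fun i => o' i = v).card ≤ k) →
      ∑ i, dist (s (o i)) (r i) ≤ ∑ i, dist (s (o' i)) (r i)) :
    ∑ σ : Perm (Fin n), ∑ i : Fin n, dist (s (alg pick s i
      (fun j => (r ∘ σ) (j.castLE i.isLt.le)) ((r ∘ σ) i))) ((r ∘ σ) i) ≤
      n.factorial * ((17 + 12 * Real.log q) * ∑ i, dist (s (o i)) (r i)) := by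
  set z := r ⟨0, h1⟩
  have h2 := avg hp s r z o (o ⟨0, h1⟩) hn hq (Nat.pos_of_ne_zero fun e => by simp [e] at hq; omega)
    (Nat.pos_of_ne_zero fun e => by simp [e] at hq; omega) ho
  have h3 : ∀ σ : Perm (Fin n), ∑ i : Fin n, dist (s (alg pick s i
      (fun j => (r ∘ σ) (j.castLE i.isLt.le)) ((r ∘ σ) i))) ((r ∘ σ) i) +
      ∑ i, dist (s (o i)) (r i) ≤
      ∑ t ∈ range n, ext pick (fun i a => dist (s a) (ex (r ∘ σ) z i)) t := fun σ => by
    set g : ℕ → V → ℝ := fun i a => dist (s a) (ex (r ∘ σ) z i) with hg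
    obtain ⟨τ, hτ, eτ⟩ := mn_att g (t := n) (p := (· = X pick g n)) (σ := dec pick g)
      (X_eq pick g n).symm
    have c1 := mn_le g (t := 0) (p := (· = X pick g 0)) (σ := dec pick g) (X_eq pick g 0).symm
    have c2 := hopt (fun e => τ (σ⁻¹ e : Fin n)) fun v => by
      rw [card_comp σ⁻¹ fun i => τ i = v, card_ld, hτ, X_eq]
      exact feas hp g n hn v
    rw [← Equiv.sum_comp σ fun e => dist (s (τ (σ⁻¹ e : Fin n))) (r e)] at c2
    rw [sum_ext, eτ, Finset.sum_range, Finset.sum_range]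
    simp only [alg_eq pick s (r ∘ σ) z]
    simp only [hg, ex_fin, range_zero, sum_empty, Function.comp, Perm.coe_inv,
      symm_apply_apply] at c1 c2 ⊢
    linarith
  have h4 := sum_le_sum fun σ (_ : σ ∈ (univ : Finset (Perm (Fin n)))) => h3 σ
  rw [sum_add_distrib, sum_const, card_perms, nsmul_eq_mul] at h4
  linarith

end Pool.Agent.P.MP_709c52_lc.RO
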