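import Pool.Agent.P.MP_709c52_lc.H99.Load

/-! Distances to the free sites along the arcs of a fixed assignment. -/

set_option autoImplicit false

namespace Pool.Agent.P.MP_709c52_lc.RO

open Finset H99

variable {V : Type} [DecidableEq V] [Fintype V] {N : Type*} [PseudoMetricSpace N]

lemma sum_ld_mul (T : Finset ℕ) (σ : ℕ → V) (f : V → ℝ) :
    ∑ v, (ld T σ v : ℝ) * f v = ∑ i ∈ T, f (σ i) := by
  simp only [ld, Nat.cast_sum, sum_mul]
  rw [sum_comm]
  simp

section
variable (s : V → N) (R : ℕ → N) (t k : ℕ) (M : ℕ → V)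

/-- A unit of load travels from `v` to a free site; only requests sent to `U` are moved. -/
def Push (U : Finset V) (v : V) (c : ℝ) : Prop :=
  ∃ (M' : ℕ → V) (a : V), ld (range t) M a < k ∧ (∀ i, M i ∉ U → M' i = M i) ∧
    (∀ w, (ld (range t) M' w + if v = w then 1 else 0) =
      ld (range t) M w + if a = w then 1 else 0) ∧
    ∑ i ∈ range t, dist (s (M' i)) (R i) + dist (s v) (s a) ≤
      ∑ i ∈ range t, dist (s (M i)) (R i) + 2 * c

structure Inv (O : ℕ → V) (l : ℕ → ℝ) (η : ℝ) (U : Finset V) (D : V → ℝ) (lam : ℝ) : Prop where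
  free : ∀ v, ld (range t) M v < k → v ∈ U ∧ D v = 0
  bd : ∀ v, 0 ≤ D v ∧ D v ≤ lam
  out : ∀ v ∉ U, D v = lam
  arc : ∀ i < t, D (M i) ≤ l i + D (O i)
  push : ∀ v ∈ U, Push s R t k M U v
    (D v + η * (U.filter fun w => k ≤ ld (range t) M w).card)

variable {s R t k M}

omit [Fintype V] in
lemma Inv.grow {O : ℕ → V} {l : ℕ → ℝ} {η : ℝ} {U : Finset V} {D : V → ℝ} {lam : ℝ}
    (hη : 0 ≤ η) (hl : ∀ i < t, 0 ≤ l i ∧ dist (s (O i)) (R i) ≤ l i + η)
    (h : Inv s R t k M O l η U D lam) {j : ℕ} (hj : j < t ∧ M j ∉ U ∧ O j ∈ U) :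
    ∃ u ∉ U, ∃ D' lam', Inv s R t k M O l η (insert u U) D' lam' := by
  obtain ⟨i, hi, hm⟩ := exists_min_image ((range t).filter fun i => M i ∉ U ∧ O i ∈ U)
    (fun i => l i + D (O i)) ⟨j, by simpa using hj⟩
  obtain ⟨i1, i2, i3⟩ : i < t ∧ M i ∉ U ∧ O i ∈ U := by simpa using hi
  have hlam : lam ≤ l i + D (O i) := h.out _ i2 ▸ h.arc i i1
  have hfull : k ≤ ld (range t) M (M i) := not_lt.1 fun x => i2 (h.free _ x).1
  have hc : (((insert (M i) U).filter fun w => k ≤ ld (range t) M w).card : ℝ) =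
      (U.filter fun w => k ≤ ld (range t) M w).card + 1 := by
    rw [filter_insert, if_pos hfull, card_insert_of_notMem fun x => i2 (mem_filter.1 x).1]
    push_cast; rfl
  refine ⟨M i, i2, fun v => if v ∈ U then D v else l i + D (O i), l i + D (O i),
    fun v hv => ⟨mem_insert_of_mem (h.free v hv).1, by simp [h.free v hv]⟩, fun v => ?_,
    fun v hv => if_neg fun x => hv (mem_insert_of_mem x), fun i' hi' => ?_, fun v hv => ?_⟩
  · have := h.bd v
    split_ifs <;> constructor <;> linarith
  · have h1 := h.arc i' hi'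
    have h2 := (h.bd (O i')).2
    have h3 := (hl i' hi').1
    by_cases c1 : M i' ∈ U <;> by_cases c2 : O i' ∈ U <;> simp only [c1, c2, if_true, if_false]
    · exact h1
    · linarith
    · exact hm i' (by simp [hi', c1, c2])
    · linarith
  · rw [hc]
    by_cases c : v ∈ U
    · obtain ⟨M', a, k1, k2, k3, k4⟩ := h.push v c
      refine ⟨M', a, k1, fun i' x => k2 i' fun y => x (mem_insert_of_mem y), k3, ?_⟩
      simp only [c, if_true]
      linarith
    · obtain rfl : v = M i := (mem_insert.1 hv).resolve_right c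
      obtain ⟨M', a, k1, k2, k3, k4⟩ := h.push _ i3
      have ei := k2 i i2
      have up : ∀ {β : Type} [AddCommMonoid β] (f : ℕ → V → β),
          ∑ x ∈ range t, f x (Function.update M' i (O i) x) + f i (M i) =
            ∑ x ∈ range t, f x (M' x) + f i (O i) := by
        intro β _ f
        rw [← sum_erase_add _ _ (mem_range.2 i1),
          ← sum_erase_add _ (fun x => f x (M' x)) (mem_range.2 i1), Function.update_self, ei,
          sum_congr rfl fun x hx => by rw [Function.update_of_ne (ne_of_mem_erase hx)]]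
        abel
      refine ⟨Function.update M' i (O i), a, k1, fun i' x => ?_, fun w => ?_, ?_⟩
      · rw [Function.update_of_ne fun y => x (by rw [y]; exact mem_insert_self _ _)]
        exact k2 i' fun y => x (mem_insert_of_mem y)
      · exact (up fun _ u => if u = w then 1 else 0).trans (k3 w)
      · have k5 := up fun x u => dist (s u) (R x)
        have k6 := dist_triangle (s (M i)) (s (O i)) (s a)
        have k7 := dist_triangle_right (s (M i)) (s (O i)) (R i)
        have k8 := (hl i i1).2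
        simp only [c, if_false]
        linarith

lemma path {O : ℕ → V} {l : ℕ → ℝ} {η : ℝ} (hη : 0 ≤ η)
    (hl : ∀ i < t, 0 ≤ l i ∧ dist (s (O i)) (R i) ≤ l i + η) :
    ∃ U D lam, Inv s R t k M O l η U D lam ∧ ∀ i < t, O i ∈ U → M i ∈ U := by
  have key : ∀ (c : ℕ) U D lam, Uᶜ.card = c → Inv s R t k M O l η U D lam →
      ∃ U D lam, Inv s R t k M O l η U D lam ∧ ∀ i < t, O i ∈ U → M i ∈ U := by
    intro c
    induction c with
    | zero =>
      intro U D lam hc h
      obtain rfl : U = univ := by simpa using hc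
      exact ⟨_, D, lam, h, fun _ _ _ => mem_univ _⟩
    | succ c ih =>
      intro U D lam hc h
      by_cases x : ∀ i < t, O i ∈ U → M i ∈ U
      · exact ⟨U, D, lam, h, x⟩
      · push Not at x
        obtain ⟨j, j1, j2, j3⟩ := x
        obtain ⟨u, hu, D', lam', h'⟩ := h.grow hη hl ⟨j1, j3, j2⟩
        exact ih _ D' lam' (by
          rw [compl_insert, card_erase_of_mem (mem_compl.2 hu), hc]
          rfl) h'
  refine key _ (univ.filter fun v => ld (range t) M v < k) 0 0 rfl
    ⟨fun v hv => by simpa using hv, by simp, by simp, fun i hi => by simpa using (hl i hi).1,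
      fun v hv => ⟨M, v, (mem_filter.1 hv).2, fun _ _ => rfl, fun _ => rfl, ?_⟩⟩
  have : 0 ≤ η * ((univ.filter fun v => ld (range t) M v < k).filter
    fun w => k ≤ ld (range t) M w).card := by positivity
  simp only [dist_self, Pi.zero_apply]
  linarith

/-- A site that is not reached is filled by the arrived requests of `O`. -/
lemma reached {O : ℕ → V} {U : Finset V} (hF : ∀ v, ld (range t) M v < k → v ∈ U)
    (hU : ∀ i < t, O i ∈ U → M i ∈ U) (hO : ∀ v, ld (range t) O v ≤ k) {v : V}
    (hv : ld (range t) O v < k) : v ∈ U := by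
  by_contra x
  have h1 := sum_ld_mul (range t) M fun w => if w ∈ U then 0 else 1
  have h2 := sum_ld_mul (range t) O fun w => if w ∈ U then 0 else 1
  have h3 : ∑ i ∈ range t, (if M i ∈ U then (0 : ℝ) else 1) ≤
      ∑ i ∈ range t, if O i ∈ U then (0 : ℝ) else 1 := sum_le_sum fun i hi => by
    have := hU i (mem_range.1 hi)
    by_cases c1 : M i ∈ U <;> by_cases c2 : O i ∈ U <;> simp_all
  have h4 : ∀ w, w ∉ U → k ≤ ld (range t) M w := fun w hw => not_lt.1 fun y => hw (hF w y)
  refine absurd (h1 ▸ h2 ▸ h3) (not_le.2 (sum_lt_sum (fun w _ => ?_) ⟨v, mem_univ _, ?_⟩))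
  · split_ifs with c
    · simp
    · simpa using (hO w).trans (h4 w c)
  · simpa [x] using hv.trans_le (h4 v x)

/-- The long arcs can be dropped at the price of a factor two. -/
lemma charge {O : ℕ → V} {l : ℕ → ℝ} {D : V → ℝ} (T : Finset ℕ) (hT : T ⊆ range t)
    (hM : ∀ v, ld (range t) M v ≤ k) (h0 : ∀ v, ld (range t) M v < k → D v = 0)
    (h1 : ∀ v, 0 ≤ D v) (h2 : ∀ i < t, D (M i) ≤ l i + D (O i))
    (hO : ∀ v, ld (range t) O v + 2 * T.card ≤ k) (v0 : V) :
    ∑ v, ((k : ℝ) - ld (range t) O v) * D v ≤ 2 * ∑ i ∈ range t \ T, l i := by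
  obtain ⟨w, -, hw⟩ := exists_max_image univ D ⟨v0, mem_univ _⟩
  have e1 : ∑ v, ((k : ℝ) - ld (range t) O v) * D v = ∑ i ∈ range t, (D (M i) - D (O i)) := by
    rw [sum_sub_distrib, ← sum_ld_mul, ← sum_ld_mul, ← sum_sub_distrib]
    refine sum_congr rfl fun v _ => ?_
    rcases (hM v).lt_or_eq with c | c
    · simp [h0 v c]
    · rw [c]; ring
  have hO' : ∀ v, 2 * (T.card : ℝ) ≤ k - ld (range t) O v := fun v => by
    have : ((ld (range t) O v + 2 * T.card : ℕ) : ℝ) ≤ k := by exact_mod_cast hO v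
    push_cast at this
    linarith
  have e2 : ((k : ℝ) - ld (range t) O w) * D w ≤ ∑ v, ((k : ℝ) - ld (range t) O v) * D v :=
    single_le_sum (f := fun v => ((k : ℝ) - ld (range t) O v) * D v)
      (fun v _ => mul_nonneg (le_trans (by positivity) (hO' v)) (h1 v)) (mem_univ w)
  have e3 : ∑ i ∈ T, (D (M i) - D (O i)) ≤ T.card * D w := by
    rw [← nsmul_eq_mul]
    exact sum_le_card_nsmul _ _ _ fun i _ => by linarith [hw (M i) (mem_univ _), h1 (O i)]
  have e4 : ∑ i ∈ range t \ T, (D (M i) - D (O i)) ≤ ∑ i ∈ range t \ T, l i :=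
    sum_le_sum fun i hi => by linarith [h2 i (mem_range.1 (mem_sdiff.1 hi).1)]
  have e5 := sum_sdiff hT (f := fun i => D (M i) - D (O i))
  have e6 := mul_le_mul_of_nonneg_right (hO' w) (h1 w)
  linarith

end

variable (pick : (V → ℝ) → (V → ℕ) → V)

/-- The extended cost of step `t`. -/
noncomputable def ext (g : ℕ → V → ℝ) (t : ℕ) : ℝ :=
  mn (t + 1) g (· = X pick g (t + 1)) + g t (dec pick g t) - mn t g (· = X pick g t)

omit [Fintype V] in
lemma sum_ext (g : ℕ → V → ℝ) (n : ℕ) : ∑ t ∈ range n, ext pick g t =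
    ∑ t ∈ range n, g t (dec pick g t) + mn n g (· = X pick g n) - mn 0 g (· = X pick g 0) := by
  induction n with
  | zero => simp
  | succ n ih => rw [sum_range_succ, sum_range_succ, ih, ext]; ring

variable {pick} {k : ℕ}
  (hp : ∀ (f : V → ℝ) (x : V → ℕ) (a : V), x a < k → x (pick f x) < k ∧ f (pick f x) ≤ f a)
  (s : V → N)
include hp

/-- The extended costs of all the requests that could come next. -/
lemma stepsum (R : ℕ → N) (O : ℕ → V) {n t q : ℕ} (ht : t < n) (hn : n ≤ k * Fintype.card V)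
    (hq : n ≤ k * q) (hO : ∀ v, ld (range n) O v ≤ k) (l : ℕ → ℝ) {η : ℝ} (hη : 0 ≤ η)
    (hl : ∀ i < t, 0 ≤ l i ∧ dist (s (O i)) (R i) ≤ l i + η) (T : Finset ℕ) (hT : T ⊆ range t)
    (hT' : ∀ v, ld (range t) O v + 2 * T.card ≤ k) (R' : ℕ → ℕ → N)
    (hR : ∀ u ∈ Ico t n, (∀ i < t, R' u i = R i) ∧ R' u t = R u) :
    ∑ u ∈ Ico t n, (ext pick (fun i a => dist (s a) (R' u i)) t - 2 * dist (s (O u)) (R u)) ≤
      4 * ∑ i ∈ range t \ T, l i + 2 * ((n - t : ℕ) * (η * q)) := by
  set g : ℕ → V → ℝ := fun i a => dist (s a) (R i) with hg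
  obtain ⟨M, hM, eM⟩ := mn_att g (t := t) (p := (· = X pick g t)) (σ := dec pick g)
    (X_eq pick g t).symm
  have hMk : ∀ v, ld (range t) M v ≤ k := fun v => by
    rw [hM, X_eq]
    exact feas hp g t (by omega) v
  obtain ⟨U, D, lam, h, hU⟩ := path (s := s) (R := R) (k := k) (M := M) hη hl
  have hsp : ∀ v, ld (range t) O v + ld (Ico t n) O v ≤ k := fun v => by
    refine le_of_eq_of_le ?_ (hO v)
    simp only [ld]
    exact sum_range_add_sum_Ico _ ht.le
  have hc : ((U.filter fun w => k ≤ ld (range t) M w).card : ℝ) ≤ q := by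
    have c1 : (U.filter fun w => k ≤ ld (range t) M w).card * k ≤ t := by
      rw [← smul_eq_mul, ← sum_const]
      exact ((sum_le_sum fun v hv => (mem_filter.1 hv).2).trans
        (sum_le_sum_of_subset (subset_univ _))).trans_eq ((sum_ld _ M).trans (card_range t))
    have c2 : (U.filter fun w => k ≤ ld (range t) M w).card < q :=
      Nat.lt_of_mul_lt_mul_left (a := k) (by rw [mul_comm]; omega)
    exact_mod_cast c2.le
  have h1 : ∀ u ∈ Ico t n, ext pick (fun i a => dist (s a) (R' u i)) t -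
      2 * dist (s (O u)) (R u) ≤ 2 * D (O u) + 2 * (η * q) := fun u hu => by
    set g' : ℕ → V → ℝ := fun i a => dist (s a) (R' u i) with hg'
    have e : ∀ i < t, g' i = g i := fun i hi => by simp only [hg, hg', (hR u hu).1 i hi]
    have e' : ∀ a, g' t a = dist (s a) (R u) := fun a => by simp only [hg', (hR u hu).2]
    have eX : X pick g' t = ld (range t) M := (X_congr pick t e).trans hM.symm
    have hu' : 1 ≤ ld (Ico t n) O (O u) :=
      le_of_eq_of_le (if_pos rfl).symm (single_le_sum
        (f := fun i => if O i = O u then 1 else 0) (fun _ _ => Nat.zero_le _) hu)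
    obtain ⟨M', a, k1, -, k3, k4⟩ := h.push (O u) (reached (fun v hv => (h.free v hv).1) hU
      (fun v => by have := hsp v; omega) (by have := hsp (O u); omega))
    have k5 : mn (t + 1) g' (· = X pick g' (t + 1)) + g' t (dec pick g' t) ≤
        mn (t + 1) g' (· = up (X pick g' t) a) + g' t a :=
      (hp (fun a => mn (t + 1) g' (· = up (X pick g' t) a) + g' t a) _ a (eX ▸ k1)).2
    have e2 : ∀ i ∈ range t, Function.update M' t (O u) i = M' i := fun i hi =>
      Function.update_of_ne (mem_range.1 hi).ne _ _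
    have k6 := mn_le g' (t := t + 1) (p := (· = up (X pick g' t) a))
      (σ := Function.update M' t (O u)) (by
        funext w
        rw [ld_succ, ld_congr e2, Function.update_self, k3, eX]
        rfl)
    rw [sum_range_succ, Function.update_self,
      sum_congr rfl fun i hi => by rw [e2 i hi, e i (mem_range.1 hi)]] at k6
    have k7 : mn t g' (· = X pick g' t) = ∑ i ∈ range t, g i (M i) := by
      rw [mn_congr e, X_congr pick t e, eM]
    have k8 := dist_triangle_left (s a) (R u) (s (O u))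
    have k9 := mul_le_mul_of_nonneg_left hc hη
    rw [ext, k7]
    rw [e' a] at k5
    rw [e'] at k6
    simp only [hg] at *
    linarith
  have h2 := charge T hT hMk (fun v hv => (h.free v hv).2) (fun v => (h.bd v).1) h.arc hT' (O 0)
  have h3 : ∑ u ∈ Ico t n, D (O u) ≤ ∑ v, ((k : ℝ) - ld (range t) O v) * D v := by
    rw [← sum_ld_mul]
    refine sum_le_sum fun v _ => mul_le_mul_of_nonneg_right ?_ (h.bd v).1
    have : ((ld (range t) O v + ld (Ico t n) O v : ℕ) : ℝ) ≤ k := by exact_mod_cast hsp v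
    push_cast at this
    linarith
  have h4 := sum_le_sum h1
  rw [sum_add_distrib, ← mul_sum, sum_const, Nat.card_Ico, nsmul_eq_mul] at h4
  linarith

end Pool.Agent.P.MP_709c52_lc.RO
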