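import Pool.Agent.P.MP_709c52_lc.RO.Path

/-! Counting permutations. -/

set_option autoImplicit false

namespace Pool.Agent.P.MP_709c52_lc.RO

open Finset H99 Equiv

variable {n : ℕ}

/-- The rank of an element inside a set is uniform. -/
lemma rank (B : Finset (Fin n)) {e : Fin n} (he : e ∈ B) (q : ℕ) :
    B.card * (univ.filter fun π : Perm (Fin n) =>
      (B.filter fun a => π e ≤ π a).card ≤ q).card ≤ q * n.factorial := by
  have h1 : ∀ b ∈ B, (univ.filter fun π : Perm (Fin n) =>
      (B.filter fun a => π e ≤ π a).card ≤ q).card =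
      ∑ π : Perm (Fin n), if (B.filter fun a => π b ≤ π a).card ≤ q then 1 else 0 := fun b hb => by
    rw [card_filter, ← Equiv.sum_comp (Equiv.mulRight (swap b e))]
    refine sum_congr rfl fun π _ => if_congr (Eq.to_iff ?_) rfl rfl
    congr 1
    have hs : ∀ a ∈ B, swap b e a ∈ B := fun a ha => by
      rw [swap_apply_def]; split_ifs <;> assumption
    refine card_nbij' (swap b e) (swap b e) (fun a ha => ?_) (fun a ha => ?_)
      (fun a _ => swap_apply_self _ _ _) fun a _ => swap_apply_self _ _ _
    · have := mem_filter.1 (mem_coe.1 ha)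
      exact mem_coe.2 (mem_filter.2 ⟨hs a this.1, by simpa using this.2⟩)
    · have := mem_filter.1 (mem_coe.1 ha)
      exact mem_coe.2 (mem_filter.2 ⟨hs a this.1, by simpa using this.2⟩)
  rw [← smul_eq_mul, ← sum_const, sum_congr rfl h1, sum_comm]
  refine (sum_le_card_nsmul _ _ q fun π _ => ?_).trans_eq (by
    rw [card_univ, Fintype.card_perm, Fintype.card_fin, smul_eq_mul, mul_comm])
  rw [← card_filter]
  have key : ∀ b ∈ B, ∀ c ∈ B, π b < π c →
      (B.filter fun a => π c ≤ π a).card < (B.filter fun a => π b ≤ π a).card :=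
    fun b hb c _ h => card_lt_card ⟨fun a ha => mem_filter.2
      ⟨(mem_filter.1 ha).1, h.le.trans (mem_filter.1 ha).2⟩,
      fun x => absurd (mem_filter.1 (x (mem_filter.2 ⟨hb, le_rfl⟩))).2 (not_le.2 h)⟩
  refine (card_le_card_of_injOn (t := Icc 1 q) (fun b => (B.filter fun a => π b ≤ π a).card)
    (fun b hb => ?_) fun b hb c hc x => ?_).trans_eq (by simp)
  · have := mem_filter.1 (mem_coe.1 hb)
    exact mem_coe.2 (mem_Icc.2 ⟨card_pos.2 ⟨b, mem_filter.2 ⟨this.1, le_rfl⟩⟩, this.2⟩)
  · have h2 := (mem_filter.1 (mem_coe.1 hb)).1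
    have h3 := (mem_filter.1 (mem_coe.1 hc)).1
    rcases lt_trichotomy (π b) (π c) with y | y | y
    · exact absurd x (key b h2 c h3 y).ne'
    · exact π.injective y
    · exact absurd x (key c h3 b h2 y).ne

/-- Few orders let almost `k` elements of `A` come before `e`. -/
lemma early (A : Finset (Fin n)) {k : ℕ} (hA : A.card ≤ k) (j : ℕ) (e : Fin n) :
    k * (univ.filter fun π : Perm (Fin n) =>
      k ≤ j + (A.filter fun a => π a < π e).card).card ≤ (j + 1) * n.factorial := by
  set S := univ.filter fun π : Perm (Fin n) => k ≤ j + (A.filter fun a => π a < π e).card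
  rcases S.eq_empty_or_nonempty with h | ⟨π, h⟩
  · simp [h]
  have h0 : k ≤ j + A.card := (mem_filter.1 h).2.trans (Nat.add_le_add_left (card_filter_le _ _) _)
  have h1 := rank (insert e A) (mem_insert_self _ _) (j + 1 + A.card - k)
  have h2 : S ⊆ univ.filter fun π : Perm (Fin n) =>
      ((insert e A).filter fun a => π e ≤ π a).card ≤ j + 1 + A.card - k := fun π hπ => by
    have c1 := (mem_filter.1 hπ).2
    have c2 := card_filter_add_card_filter_not (s := A) fun a => π a < π e
    simp only [not_lt] at c2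
    have c3 := card_insert_le e (A.filter fun a => π e ≤ π a)
    refine mem_filter.2 ⟨mem_univ _, ?_⟩
    rw [filter_insert, if_pos le_rfl]
    omega
  have h3 : A.card * S.card ≤ (j + 1 + A.card - k) * n.factorial :=
    (Nat.mul_le_mul (card_le_card (subset_insert e A)) (card_le_card h2)).trans h1
  have h4 : S.card ≤ n.factorial := (card_le_univ S).trans_eq (by
    rw [Fintype.card_perm, Fintype.card_fin])
  obtain ⟨c, rfl⟩ := Nat.exists_eq_add_of_le hA
  obtain ⟨d, hd⟩ : ∃ d, j + 1 = c + d := ⟨j + 1 - c, by omega⟩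
  rw [show j + 1 + A.card - (A.card + c) = d by omega] at h3
  rw [hd, add_mul, add_mul]
  have := Nat.mul_le_mul_left c h4
  omega

/-- Extension of a finite sequence. -/
def ex {α : Type*} (f : Fin n → α) (z : α) (i : ℕ) : α := if h : i < n then f ⟨i, h⟩ else z

lemma ex_fin {α : Type*} (f : Fin n → α) (z : α) (i : Fin n) : ex f z i = f i := by simp [ex]

variable {V : Type} [DecidableEq V] [Fintype V]

omit [Fintype V] in
lemma ld_ex (o : Fin n → V) (z : V) (σ : Perm (Fin n)) {t : ℕ} (ht : t ≤ n) (v : V) :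
    ld (range t) (ex (o ∘ σ) z) v =
      ((univ.filter fun a => o a = v).filter fun a => ((σ⁻¹ a : Fin n) : ℕ) < t).card := by
  rw [filter_filter, card_filter, ← Equiv.sum_comp σ, ld]
  have : range t = (range n).filter (· < t) := by ext; simp; omega
  rw [this, sum_filter, Finset.sum_range]
  refine sum_congr rfl fun i _ => ?_
  by_cases h1 : (i : ℕ) < t <;> simp [ex_fin, h1]

/-- Some site has at most `j` places left for the assignment `O`. -/
def Bad (k : ℕ) (O : ℕ → V) (t j : ℕ) : Prop := ∃ v, k ≤ j + ld (range t) O v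

open Classical in
lemma bad_count (o : Fin n → V) (z : V) {k q : ℕ} (hk : 1 ≤ k) (hq : n ≤ k * q)
    (ho : ∀ v, (univ.filter fun a => o a = v).card ≤ k) (j : ℕ) :
    ∑ σ : Perm (Fin n), (univ.filter fun t : Fin n => Bad k (ex (o ∘ σ) z) t j).card ≤
      2 * q ^ 2 * (j + 1) * n.factorial := by
  rcases Nat.eq_zero_or_pos q with rfl | q0
  · obtain rfl : n = 0 := by omega
    simp
  by_cases c : k ≤ 2 * j
  · refine (sum_le_card_nsmul _ _ n fun σ _ => (card_le_univ _).trans_eq (by simp)).trans ?_
    rw [card_univ, Fintype.card_perm, Fintype.card_fin, smul_eq_mul, mul_comm]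
    refine Nat.mul_le_mul_right _ (hq.trans ?_)
    nlinarith [Nat.mul_le_mul_right q c, Nat.mul_le_mul_left (q * j) q0]
  set W := univ.filter fun v => k ≤ j + (univ.filter fun a => o a = v).card with hW
  have hWc : W.card ≤ 2 * q := by
    have c1 : ∑ v ∈ W, k ≤ ∑ v ∈ W, 2 * (univ.filter fun a => o a = v).card :=
      sum_le_sum fun v hv => by have := (mem_filter.1 hv).2; omega
    have c2 : ∑ v ∈ W, (univ.filter fun a => o a = v).card ≤ n :=
      (sum_le_sum_of_subset (subset_univ _)).trans_eq (by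
        rw [← card_eq_sum_card_fiberwise fun _ _ => mem_univ _]; simp)
    rw [← mul_sum, sum_const, smul_eq_mul] at c1
    exact Nat.le_of_mul_le_mul_left (c := k) (by nlinarith) hk
  have h1 : ∀ σ : Perm (Fin n), (univ.filter fun t : Fin n => Bad k (ex (o ∘ σ) z) t j).card ≤
      ∑ v ∈ W, ∑ e : Fin n, if k ≤ j + ((univ.filter fun a => o a = v).filter
        fun a => σ⁻¹ a < σ⁻¹ e).card then 1 else 0 := fun σ => by
    rw [sum_comm, card_filter, ← Equiv.sum_comp σ⁻¹]
    refine sum_le_sum fun e _ => ?_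
    split_ifs with h
    · obtain ⟨v, hv⟩ := h
      rw [ld_ex _ _ _ (Fin.isLt _).le] at hv
      exact le_of_eq_of_le (if_pos hv).symm (single_le_sum (f := fun v => if k ≤ j +
        ((univ.filter fun a => o a = v).filter fun a => σ⁻¹ a < σ⁻¹ e).card then 1 else 0)
        (fun _ _ => Nat.zero_le _) (mem_filter.2 ⟨mem_univ v,
          hv.trans (Nat.add_le_add_left (card_filter_le _ _) _)⟩))
    · exact Nat.zero_le _
  refine (sum_le_sum fun σ _ => h1 σ).trans (Nat.le_of_mul_le_mul_left (c := k) ?_ hk)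
  rw [← Equiv.sum_comp (Equiv.inv _), sum_comm, mul_sum]
  refine (sum_le_card_nsmul _ _ (n * ((j + 1) * n.factorial)) fun v _ => ?_).trans ?_
  · rw [sum_comm, mul_sum]
    refine (sum_le_card_nsmul _ _ ((j + 1) * n.factorial) fun e _ => ?_).trans_eq (by simp)
    simpa only [card_filter, Equiv.inv_apply, inv_inv] using early _ (ho v) j e
  · rw [smul_eq_mul, ← mul_assoc]
    refine (Nat.mul_le_mul_right _ (Nat.mul_le_mul hWc hq)).trans_eq (by ring)

lemma harm {a : ℕ} (ha : 1 ≤ a) (B : ℕ) (h : a ≤ B) :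
    ∑ L ∈ Icc a B, (1 : ℝ) / L ≤ 1 + Real.log (B / a) := by
  have a0 : (1 : ℝ) ≤ a := by exact_mod_cast ha
  induction B, h using Nat.le_induction with
  | base =>
    rw [Icc_self, sum_singleton, div_self (by linarith), Real.log_one, add_zero]
    exact (div_le_one (by linarith)).2 a0
  | succ B h ih =>
    have b0 : (1 : ℝ) ≤ B := by exact_mod_cast ha.trans h
    rw [sum_Icc_succ_top (by omega)]
    have h1 := Real.one_sub_inv_le_log_of_pos (x := (B + 1) / B) (by positivity)
    have h2 : 1 - (((B : ℝ) + 1) / B)⁻¹ = 1 / (B + 1) := by field_simp; ring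
    rw [h2, Real.log_div (by positivity) (by positivity)] at h1
    rw [Real.log_div (by positivity) (by positivity)] at ih ⊢
    push_cast
    linarith

/-- The charge of one arc over the whole time. -/
lemma charge_time {a c : ℕ} (ha : 1 ≤ a) (hc : 1 ≤ c) (P : Fin n → Prop) [DecidablePred P] :
    ∑ t : Fin n, (if a ≤ n - t ∧ P t then (1 : ℝ) / (n - t : ℕ) else 0) ≤
      1 + Real.log c + (univ.filter P).card / (c * a) := by
  have h1 := harm ha (c * a) (Nat.le_mul_of_pos_left _ hc)
  have a0 : (0 : ℝ) < a := by exact_mod_cast ha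
  have c0 : (0 : ℝ) < c := by exact_mod_cast hc
  rw [Nat.cast_mul, mul_div_assoc, div_self a0.ne', mul_one] at h1
  have h2 : ∑ t ∈ univ.filter (fun t : Fin n => n - t ∈ Icc a (c * a)), (1 : ℝ) / (n - t : ℕ) ≤
      ∑ L ∈ Icc a (c * a), (1 : ℝ) / L := by
    rw [← sum_image (g := fun t : Fin n => n - t) (f := fun L : ℕ => (1 : ℝ) / L)
      fun x _ y _ e => Fin.ext (by have := x.isLt; have := y.isLt; simp only at e; omega)]
    refine sum_le_sum_of_subset_of_nonneg (fun L hL => ?_) fun _ _ _ => by positivity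
    obtain ⟨t, ht, rfl⟩ := mem_image.1 hL
    exact (mem_filter.1 ht).2
  rw [sum_filter] at h2
  rw [card_filter, Nat.cast_sum, sum_div]
  refine le_trans (sum_le_sum fun t _ => ?_) (sum_add_distrib.trans_le
    (add_le_add (h2.trans h1) le_rfl))
  by_cases p : P t
  · by_cases x : n - t ∈ Icc a (c * a)
    · simp only [x, p, (mem_Icc.1 x).1, if_true, and_self, le_add_iff_nonneg_right]
      positivity
    · rw [if_neg x, if_pos p, zero_add, Nat.cast_one]
      split_ifs with y
      · refine one_div_le_one_div_of_le (by positivity) ?_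
        rw [mem_Icc] at x
        exact_mod_cast (by omega : c * a ≤ n - t)
      · positivity
  · simp only [p, and_false, if_false]
    split_ifs <;> positivity

/-- Every `q`-th term of a decreasing sequence. -/
lemma thin (d : ℕ → ℝ) (hd : Antitone d) (hz : ∀ i, n ≤ i → d i = 0)
    {q : ℕ} (hq : 1 ≤ q) : ∑ t : Fin n, d (q * (n - t)) * q ≤ ∑ i ∈ range n, d i := by
  have h1 : ∀ L, ∑ l ∈ range L, d (q * (l + 1)) * q ≤ ∑ i ∈ range (q * L), d i := fun L => by
    induction L with
    | zero => simp
    | succ L ih =>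
      rw [sum_range_succ, mul_add q L 1, sum_range_add, mul_one]
      refine add_le_add ih ?_
      rw [mul_comm, ← nsmul_eq_mul]
      exact le_of_eq_of_le (by rw [card_range]) (card_nsmul_le_sum (range q) _ _ fun i hi =>
        hd (by have := mem_range.1 hi; omega))
  have h2 : ∑ i ∈ range (q * n), d i = ∑ i ∈ range n, d i :=
    (sum_subset (range_subset_range.2 (Nat.le_mul_of_pos_left _ hq)) fun i _ hi =>
      hz i (by simpa using hi)).symm
  rw [← Finset.sum_range fun t => d (q * (n - t)) * q, ← h2, ← sum_range_reflect]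
  refine le_of_eq_of_le (sum_congr rfl fun i hi => ?_) (h1 n)
  have := mem_range.1 hi
  rw [show n - (n - 1 - i) = i + 1 by omega]

end Pool.Agent.P.MP_709c52_lc.RO
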