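import Pool.Agent.P.MP_709c52_lc.RO.Main

set_option autoImplicit false

namespace Pool.Agent.P.MP_709c52_lc.RO.Theta

open Finset Pool.Agent.P.MP_709c52_lc

universe u

/-- An assignment of `n` requests to `m` sites uses every site at most `k` times. -/
def Feasible {m n : ℕ} (k : ℕ) (o : Fin n → Fin m) : Prop :=
  ∀ j : Fin m, (univ.filter fun i : Fin n => o i = j).card ≤ k

/-- Total distance paid by an assignment of the requests `r` to the sites `s`. -/
noncomputable def cost {m n : ℕ} {N : Type u} [MetricSpace N] (s : Fin m → N) (r : Fin n → N)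
    (o : Fin n → Fin m) : ℝ :=
  ∑ i : Fin n, dist (s (o i)) (r i)

/-- The offline optimum: least cost of a feasible assignment. -/
noncomputable def opt {m n : ℕ} {N : Type u} [MetricSpace N] (s : Fin m → N) (k : ℕ)
    (r : Fin n → N) : ℝ :=
  sInf {x : ℝ | ∃ o : Fin n → Fin m, Feasible k o ∧ x = cost s r o}

/-- A deterministic online algorithm for `m` sites: knowing the metric space, the sites and the
capacity, it chooses a site from the `i` earlier requests and the current request. -/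
def Alg (m : ℕ) : Type (u + 1) :=
  (N : Type u) → [MetricSpace N] → (Fin m → N) → ℕ → (i : ℕ) → (Fin i → N) → N → Fin m

/-- The assignment that the algorithm produces on the request sequence `r`. -/
def run {m n : ℕ} (A : Alg.{u} m) {N : Type u} [MetricSpace N] (s : Fin m → N) (k : ℕ)
    (r : Fin n → N) : Fin n → Fin m :=
  fun i => A N s k i (fun j => r (j.castLE i.isLt.le)) (r i)

/-- `A` respects the capacity, and on every instance with `m` sites, capacity `k` and `n` requests,
over all metric spaces, its cost averaged over the `n !` arrival orders is at most `c` times the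
optimum. -/
def RandomCompetitive {m : ℕ} (A : Alg.{u} m) (k n : ℕ) (c : ℝ) : Prop :=
  ∀ (N : Type u) [MetricSpace N] (s : Fin m → N) (r : Fin n → N), Feasible k (run A s k r) ∧
    (∑ σ : Equiv.Perm (Fin n), cost s (r ∘ σ) (run A s k (r ∘ σ))) / n.factorial ≤ c * opt s k r

lemma fin_costs {m n : ℕ} {N : Type u} [MetricSpace N] (s : Fin m → N) (k : ℕ) (r : Fin n → N) :
    {x : ℝ | ∃ o : Fin n → Fin m, Feasible k o ∧ x = cost s r o}.Finite :=
  (Set.finite_range (cost s r)).subset fun _ ⟨o, _, h⟩ => ⟨o, h.symm⟩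

lemma upper (m : ℕ) (hm : 1 ≤ m) : ∃ A : Alg.{u} m, ∀ k n q : ℕ, 1 ≤ n → n ≤ k * m → n ≤ k * q →
    RandomCompetitive A k n (17 + 12 * Real.log q) := by
  have : Nonempty (Fin m) := ⟨⟨0, hm⟩⟩
  choose pick hp using H99.exists_pick (V := Fin m)
  refine ⟨fun N _ s k => RO.alg (pick k) s, fun k n q h0 hn hq N _ s r => ?_⟩
  have h1 := RO.alg_feas (hp k) s r (by simpa using hn) (r ⟨0, h0⟩)
  obtain ⟨o, ho, e⟩ := Set.Nonempty.csInf_mem
    (s := {x : ℝ | ∃ o : Fin n → Fin m, Feasible k o ∧ x = cost s r o}) ⟨_, _, h1, rfl⟩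
    (fin_costs s k r)
  refine ⟨h1, ?_⟩
  rw [opt, e, div_le_iff₀' (by exact_mod_cast n.factorial_pos)]
  exact RO.alg_avg (hp k) s r (by simpa using hn) h0 hq o ho fun o' ho' =>
    e.symm.trans_le (csInf_le (fin_costs s k r).bddBelow ⟨o', ho', rfl⟩)

lemma lower {m k n q : ℕ} (hk : 1 ≤ k) (h0 : 1 ≤ n) (hn : n ≤ k * m) (q0 : 1 ≤ q)
    (hq : ∀ l, n ≤ k * l → q ≤ l) (B : Alg.{u} m) (c : ℝ) (h : RandomCompetitive B k n c) :
    Real.log q - 6 ≤ c := by
  classical
  let N := ULift.{u} (Fin m → ℝ)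
  let near : Fin m → Prop := fun a => (a + 1) * k ≤ n
  let w : Fin m → ℝ := fun a => if near a then 1 else 2 * n
  have n1 : (1 : ℝ) ≤ n := by exact_mod_cast h0
  have w1 : ∀ a, 1 ≤ w a := fun a => by simp only [w]; split_ifs <;> linarith
  let s : Fin m → N := fun a => ⟨fun b => if a = b then w a else -w a⟩
  have d0 : ∀ a, dist (s a) ⟨0⟩ = w a := fun a => by
    have e : |w a| = w a := abs_of_nonneg (by linarith [w1 a])
    change dist (fun b => if a = b then w a else -w a) 0 = w a
    refine le_antisymm ((dist_pi_le_iff (by linarith [w1 a])).2 fun b => ?_) ?_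
    · split_ifs <;> simp [e]
    · simpa [e] using dist_le_pi_dist (fun b => if a = b then w a else -w a) 0 a
  have d1 : ∀ a b, a ≠ b → w a + w b ≤ dist (s a) (s b) := fun a b hab => by
    have := dist_le_pi_dist (fun c => if a = c then w a else -w a)
      (fun c => if b = c then w b else -w b) a
    simp only [if_true, if_neg hab.symm, Real.dist_eq, sub_neg_eq_add] at this
    exact (le_abs_self _).trans this
  let col : Fin n → Fin m := fun i =>
    ⟨i / k, (Nat.div_lt_iff_lt_mul hk).2 (i.isLt.trans_le (mul_comm k m ▸ hn))⟩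
  have hcol : ∀ i v, col i = v ↔ (i : ℕ) ∈ Ico (v * k) (v * k + k) := fun i v => by
    rw [Fin.ext_iff, mem_Ico, Nat.div_eq_iff hk]
    omega
  have hc1 : Feasible k col := fun v =>
    (card_le_card_of_injOn (t := Ico (v * k) (v * k + k)) Fin.val
      (fun i hi => (hcol i v).1 (mem_filter.1 (mem_coe.1 hi)).2)
      Fin.val_injective.injOn).trans_eq (by simp)
  have hc2 : ∀ v, near v → k ≤ (univ.filter fun i => col i = v).card := fun v hv =>
    le_of_eq_of_le (by simp) (card_le_card_of_surjOn (t := Ico (v * k) (v * k + k)) Fin.val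
      fun x hx => ⟨⟨x, (mem_Ico.1 (mem_coe.1 hx)).2.trans_le (by simpa [near, add_mul] using hv)⟩,
        mem_coe.2 (mem_filter.2 ⟨mem_univ _, (hcol _ v).2 hx⟩), rfl⟩)
  have hc3 : (univ.filter fun i => ¬ near (col i)).card ≤ k :=
    (card_le_card_of_injOn (t := Ico (n - k) n) Fin.val (fun i hi => by
      have h1 := (mem_filter.1 (mem_coe.1 hi)).2
      have h2 := Nat.div_mul_le_self i k
      simp only [near, col, add_mul, one_mul] at h1
      exact mem_coe.2 (mem_Ico.2 ⟨by omega, i.isLt⟩)) Fin.val_injective.injOn).trans (by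
        rw [Nat.card_Ico]; omega)
  let r : Fin n → Fin n → N := fun p i => if i = p then ⟨0⟩ else s (col i)
  have hr : ∀ (j i : Fin n) (σ : Equiv.Perm (Fin n)),
      (r (σ j) ∘ σ) i = if i = j then ⟨0⟩ else s (col (σ i)) := fun j i σ => by simp [r]
  have key := RO.lower near col hk h0 hc1 hc2 hc3 (fun j σ => run B s k (r (σ j) ∘ σ))
    (fun j σ σ' i hi => by
      have e : ∀ l ≤ i, (r (σ j) ∘ σ) l = (r (σ' j) ∘ σ') l := fun l hl => by
        rw [hr, hr]
        split_ifs with x
        exacts [rfl, by rw [hi l hl x]]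
      simp only [run]
      rw [e i le_rfl, funext fun l : Fin i => e (l.castLE i.isLt.le) l.isLt.le])
    (fun j σ => (h N s _).1)
    (fun j σ i => dist (s (run B s k (r (σ j) ∘ σ) i)) ((r (σ j) ∘ σ) i))
    (fun _ _ _ => dist_nonneg)
    (fun j σ i x y => by
      rw [hr, if_neg x]
      linarith [d1 _ _ y, w1 (col (σ i)), w1 (run B s k (r (σ j) ∘ σ) i)])
    (fun j σ i x y => by
      have e : w (run B s k (r (σ j) ∘ σ) i) = 2 * n := if_neg x
      rw [hr]
      split_ifs with z
      · rw [d0, e]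
      · linarith [d1 _ _ (y.resolve_left z), w1 (col (σ i))]) q0 hq
  have f0 : (0 : ℝ) < n.factorial := by exact_mod_cast n.factorial_pos
  have c0 : 0 ≤ c := by
    obtain ⟨h1, h2⟩ := h N s fun _ => ⟨0⟩
    have h3 : (1 : ℝ) ≤ opt s k fun _ : Fin n => (⟨0⟩ : N) :=
      le_csInf ⟨_, _, h1, rfl⟩ fun x ⟨o, _, e⟩ => e ▸ ((w1 _).trans_eq (d0 _).symm).trans
        (single_le_sum (f := fun i => dist (s (o i)) ⟨0⟩) (fun _ _ => dist_nonneg)
          (mem_univ ⟨0, h0⟩))
    exact nonneg_of_mul_nonneg_left ((div_nonneg (sum_nonneg fun _ _ =>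
      sum_nonneg fun _ _ => dist_nonneg) f0.le).trans h2) (by linarith)
  have key' := key.trans_eq (sum_comm.trans ((sum_congr rfl fun σ _ => Equiv.sum_comp σ fun p =>
    if near (col p) then cost s (r p ∘ σ) (run B s k (r p ∘ σ)) else 0).trans sum_comm))
  refine le_of_mul_le_mul_left (key'.trans ((sum_le_card_nsmul _ _ (n.factorial * c)
    fun p _ => ?_).trans_eq (by simp [mul_assoc]))) (by positivity)
  split_ifs with x
  · have h1 : opt s k (r p) ≤ 1 := by
      refine (csInf_le (fin_costs s k _).bddBelow ⟨col, hc1, rfl⟩).trans_eq ?_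
      rw [cost, sum_eq_single p (fun i _ y => by simp [r, y]) (by simp)]
      simp only [r, if_true, d0, w, x]
    exact (div_le_iff₀' f0).1 ((h N s (r p)).2.trans (mul_le_of_le_one_right c0 h1))
  · rw [sum_const_zero]
    positivity

/-- In the random order model the deterministic competitive ratio lies between
`log ⌈n / k⌉ - 6` and `17 + 12 log ⌈n / k⌉`; one algorithm attains the upper bound for all `k`
and `n`. -/
theorem result (m : ℕ) (hm : 1 ≤ m) : ∃ A : Alg.{u} m, ∀ k n : ℕ, 1 ≤ k → 1 ≤ n → n ≤ k * m →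
    RandomCompetitive A k n (17 + 12 * Real.log ⌈(n : ℝ) / k⌉) ∧
      ∀ (B : Alg.{u} m) (c : ℝ), RandomCompetitive B k n c → Real.log ⌈(n : ℝ) / k⌉ - 6 ≤ c := by
  obtain ⟨A, hA⟩ := upper.{u} m hm
  refine ⟨A, fun k n hk h1 hn => ?_⟩
  have k0 : (0 : ℝ) < k := by exact_mod_cast hk
  have e : (⌈(n : ℝ) / k⌉ : ℝ) = (⌈(n : ℝ) / k⌉₊ : ℕ) := by
    rw [← Int.natCast_ceil_eq_ceil (by positivity), Int.cast_natCast]
  have h2 : ∀ l : ℕ, ⌈(n : ℝ) / k⌉₊ ≤ l ↔ n ≤ k * l := fun l => by
    rw [Nat.ceil_le, div_le_iff₀' k0]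
    exact_mod_cast Iff.rfl
  rw [e]
  exact ⟨hA k n _ h1 hn ((h2 _).1 le_rfl),
    lower hk h1 hn (Nat.ceil_pos.2 (by positivity)) fun l => (h2 l).2⟩

end Pool.Agent.P.MP_709c52_lc.RO.Theta
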